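import Pool.Agent.H25.Aron

namespace Pool.Agent.Results.MP_e8eed4_co.No
open Function Filter
open scoped ENNReal

variable {V : Type}

open Classical in
/-- Total weight of the bichromatic edges at `v`. -/
noncomputable def D (w : V → V → ℕ) (φ : V → Fin 3) (v : V) : ℝ≥0∞ :=
  ∑' u, if φ u ≠ φ v then (w v u : ℝ≥0∞) else 0

open Classical in
/-- Total weight of the monochromatic edges at `v`. -/
noncomputable def S (w : V → V → ℕ) (φ : V → Fin 3) (v : V) : ℝ≥0∞ :=
  ∑' u, if φ u = φ v then (w v u : ℝ≥0∞) else 0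

theorem forbid [Countable V] (N : V → Set V) : ∃ f : V → Fin 3, ∀ v, (N v).Infinite → ∀ c,
    {u | u ∈ N v ∧ f u = c}.Infinite := by
  classical
  obtain ⟨e, he⟩ := Countable.exists_injective_nat ({v // (N v).Infinite} × Fin 3 × ℕ)
  obtain ⟨g, hg⟩ := Pool.Agent.H25.Aron.trec (J := ℕ) (α := Option V)
    (fun j a => ∀ t, e t = j → ∃ u, a = some u ∧ u ∈ N t.1.1) (fun _ a b => b = none ∨ a ≠ b) (by
      intro j f _ _
      by_cases h : ∃ t, e t = j
      · obtain ⟨t, ht⟩ := h
        obtain ⟨u, hu, hu2⟩ := t.1.2.exists_notMem_finite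
          ((Set.finite_range f).preimage (Option.some_injective V).injOn)
        refine ⟨some u, fun s hs => ⟨u, rfl, ?_⟩, fun i => Or.inr fun h => hu2 ⟨i, h⟩⟩
        rw [he (hs.trans ht.symm)]
        exact hu
      · exact ⟨none, fun t ht => (h ⟨t, ht⟩).elim, fun _ => Or.inl rfl⟩)
  choose p p1 p2 using fun t => (hg (e t)).1 t rfl
  have inj : Injective p := by
    intro s t h
    apply he
    have : g (e s) = g (e t) := by rw [p1, p1, h]
    rcases lt_trichotomy (e s) (e t) with l | l | l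
    · rcases (hg _).2 _ l with k | k
      · simp [p1] at k
      · exact (k this).elim
    · exact l
    · rcases (hg _).2 _ l with k | k
      · simp [p1] at k
      · exact (k this.symm).elim
  refine ⟨Function.extend p (fun t => t.2.1) (fun _ => 0), fun v hv c => ?_⟩
  refine Set.infinite_of_injective_forall_mem (f := fun n : ℕ => p (⟨v, hv⟩, c, n))
    (fun n m h => by simpa using inj h) fun n => ⟨p2 (⟨v, hv⟩, c, n), inj.extend_apply _ _ _⟩

theorem fin_case [DecidableEq V] (w : V → V → ℕ) (hs : ∀ a b, w a b = w b a) (h0 : ∀ a, w a a = 0)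
    (f : V → Fin 3) (F : Finset V) : ∃ φ : V → Fin 3, (∀ u, φ u ≠ f u) ∧ ∀ v ∈ F,
      (∑ u ∈ F, if φ u = φ v then w v u else 0) ≤ ∑ u ∈ F, if φ u ≠ φ v then w v u else 0 := by
  let M : (V → Fin 3) → ℕ := fun φ => ∑ x ∈ F, ∑ u ∈ F, if φ u = φ x then w x u else 0
  have ne : {φ : V → Fin 3 | ∀ u, φ u ≠ f u}.Nonempty :=
    ⟨fun u => f u + 1, fun u => (by decide : ∀ a : Fin 3, a + 1 ≠ a) (f u)⟩
  obtain ⟨φ, h1, h2⟩ := (InvImage.wf M wellFounded_lt).has_min _ ne
  refine ⟨φ, h1, fun v hv => ?_⟩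
  have dec : ∀ ψ : V → Fin 3, M ψ = 2 * (∑ u ∈ F.erase v, if ψ u = ψ v then w v u else 0) +
      ∑ x ∈ F.erase v, ∑ u ∈ F.erase v, if ψ u = ψ x then w x u else 0 := by
    intro ψ
    simp only [M]
    rw [← Finset.add_sum_erase F _ hv]
    simp only [← Finset.add_sum_erase F _ hv, Finset.sum_add_distrib, h0, ite_self, zero_add]
    have : (∑ x ∈ F.erase v, if ψ v = ψ x then w x v else 0) =
        ∑ u ∈ F.erase v, if ψ u = ψ v then w v u else 0 :=
      Finset.sum_congr rfl fun x _ => by rw [hs x v]; simp only [eq_comm]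
    rw [this]
    ring
  obtain ⟨b, b1, b2⟩ : ∃ b, b ≠ f v ∧ b ≠ φ v := by
    generalize f v = a
    generalize φ v = c
    revert a c
    decide
  have h3 := h2 (Function.update φ v b) (fun u => by
    by_cases e : u = v
    · rw [e, Function.update_self]
      exact b1
    · rw [Function.update_of_ne e]
      exact h1 u)
  have h4 : M φ ≤ M (Function.update φ v b) := not_lt.1 h3
  rw [dec, dec] at h4
  have e1 : (∑ x ∈ F.erase v, ∑ u ∈ F.erase v,
      if Function.update φ v b u = Function.update φ v b x then w x u else 0) =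
      ∑ x ∈ F.erase v, ∑ u ∈ F.erase v, if φ u = φ x then w x u else 0 :=
    Finset.sum_congr rfl fun x hx => Finset.sum_congr rfl fun u hu => by
      rw [Function.update_of_ne (Finset.ne_of_mem_erase hx),
        Function.update_of_ne (Finset.ne_of_mem_erase hu)]
  have e2 : (∑ u ∈ F.erase v, if Function.update φ v b u = Function.update φ v b v then w v u
      else 0) ≤ ∑ u ∈ F.erase v, if φ u ≠ φ v then w v u else 0 :=
    Finset.sum_le_sum fun u hu => by
      rw [Function.update_of_ne (Finset.ne_of_mem_erase hu), Function.update_self]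
      by_cases e : φ u = b
      · rw [if_pos e, if_pos (e ▸ b2)]
      · rw [if_neg e]
        exact Nat.zero_le _
  rw [← Finset.add_sum_erase F _ hv, ← Finset.add_sum_erase F _ hv]
  simp only [h0, ite_self, zero_add]
  omega

/-- Every countable multigraph with weights in `ℕ` is majority 3-colourable. -/
theorem result (V : Type) [Countable V] (w : V → V → ℕ) (hs : ∀ a b, w a b = w b a)
    (h0 : ∀ a, w a a = 0) : ∃ φ : V → Fin 3, ∀ v, S w φ v ≤ D w φ v := by
  classical
  obtain ⟨f, hf⟩ := forbid fun v => {u | w v u ≠ 0}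
  choose ψ p1 p2 using fin_case w hs h0 f
  let 𝒰 : Ultrafilter (Finset V) := Ultrafilter.of atTop
  have lim : ∀ u, ∃ c, ∀ᶠ F in (𝒰 : Filter (Finset V)), ψ F u = c := fun u =>
    Ultrafilter.eventually_exists_iff.1 (Eventually.of_forall fun F => ⟨_, rfl⟩)
  choose φ hφ using lim
  have q1 : ∀ u, φ u ≠ f u := fun u => by
    obtain ⟨F, hF⟩ := (hφ u).exists
    exact hF ▸ p1 F u
  refine ⟨φ, fun v => ?_⟩
  by_cases hN : {u | w v u ≠ 0}.Infinite
  · have : D w φ v = ⊤ := by
      by_contra h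
      refine hf v hN (φ v) ((ENNReal.finite_const_le_of_tsum_ne_top h one_ne_zero).subset ?_)
      rintro u ⟨h1, h2⟩
      have : φ u ≠ φ v := h2 ▸ q1 u
      simp only [Set.mem_setOf_eq, if_pos this]
      exact_mod_cast Nat.one_le_iff_ne_zero.2 h1
    rw [this]
    exact le_top
  · have hN' := (Set.not_infinite.1 hN).insert v
    have a1 : ∀ᶠ F in (𝒰 : Filter (Finset V)), ∀ u ∈ insert v {u | w v u ≠ 0}, ψ F u = φ u :=
      (eventually_all_finite hN').2 fun u _ => hφ u
    have a2 : ∀ᶠ F in (𝒰 : Filter (Finset V)), hN'.toFinset ≤ F :=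
      Ultrafilter.of_le atTop (eventually_ge_atTop _)
    obtain ⟨F, b1, b2⟩ := (a1.and a2).exists
    have mem : ∀ u ∈ insert v {u | w v u ≠ 0}, u ∈ F := fun u hu => b2 (hN'.mem_toFinset.2 hu)
    have z : ∀ u ∉ F, w v u = 0 := fun u hu => by_contra fun h => hu (mem u (Or.inr h))
    have k := p2 F v (mem v (Or.inl rfl))
    have c1 : S w φ v = ((∑ u ∈ F, if ψ F u = ψ F v then w v u else 0 : ℕ) : ℝ≥0∞) := by
      rw [S, tsum_eq_sum (s := F) fun u hu => by simp [z u hu], Nat.cast_sum]
      refine Finset.sum_congr rfl fun u _ => ?_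
      by_cases e : w v u = 0
      · simp [e]
      · rw [b1 u (Or.inr e), b1 v (Or.inl rfl)]
        split_ifs <;> simp
    have c2 : D w φ v = ((∑ u ∈ F, if ψ F u ≠ ψ F v then w v u else 0 : ℕ) : ℝ≥0∞) := by
      rw [D, tsum_eq_sum (s := F) fun u hu => by simp [z u hu], Nat.cast_sum]
      refine Finset.sum_congr rfl fun u _ => ?_
      by_cases e : w v u = 0
      · simp [e]
      · rw [b1 u (Or.inr e), b1 v (Or.inl rfl)]
        split_ifs <;> simp
    rw [c1, c2]
    exact_mod_cast k

end Pool.Agent.Results.MP_e8eed4_co.No
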